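import Pool.Agent.V11268.PerSpec

set_option autoImplicit false

/-!
# Exponentials of algebraic numbers and linear forms in periods of one variable

`Forms γ` (from the starting library) is the space of all linear combinations, with algebraic
coefficients, of the integrals of rational functions of one variable with algebraic coefficients
over compact intervals with algebraic end points, of all logarithms of algebraic numbers, and of
finitely many arbitrary complex numbers `γ 0, ..., γ (g - 1)` (for instance any `g` periods).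

The bound in (1), (2), (3), (5), (6) is the number `x` with `m x ≤ (m + 1) (m + g)` for all `m`;
by (0) it is at most `2 g + 2` and at most `g + 2 √g + 2`.
-/

namespace Pool.Agent.Results.MP_2cf66e_nt.AlgebraicExponents

open Pool.Agent.TH379.PER (Forms)
open scoped Pointwise

/-- (0) closed forms of the bound, (1) translation by a nonzero algebraic number,
(2) multiplication by a transcendental number, (3) and (4) finite sets of exponents with few
differences or few sums, (5) exponents in arithmetic progression, (6) powers of `e` -/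
theorem result (g : ℕ) (γ : Fin g → ℂ) :
    (∀ x : ℕ, (∀ m : ℕ, m * x ≤ (m + 1) * (m + g)) →
      x ≤ 2 * g + 2 ∧ (x : ℝ) ≤ g + 2 * Real.sqrt g + 2) ∧
    (∀ z₀ : ℂ, z₀ ≠ 0 → ∀ δ : ℂ, IsAlgebraic ℚ δ → δ ≠ 0 →
      {α : ℂ | IsAlgebraic ℚ α ∧ z₀ * Complex.exp α ∈ Forms γ ∧
        z₀ * Complex.exp (α + δ) ∈ Forms γ}.Finite ∧
      ∀ m : ℕ, m * {α : ℂ | IsAlgebraic ℚ α ∧ z₀ * Complex.exp α ∈ Forms γ ∧
        z₀ * Complex.exp (α + δ) ∈ Forms γ}.ncard ≤ (m + 1) * (m + g)) ∧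
    (∀ θ : ℂ, Transcendental ℚ θ → ∀ W : Submodule (algebraicClosure ℚ ℂ) ℂ,
      (∀ z ∈ W, z ∈ Forms γ ∧ θ * z ∈ Forms γ) →
      FiniteDimensional (algebraicClosure ℚ ℂ) W ∧
        ∀ m : ℕ, m * Module.finrank (algebraicClosure ℚ ℂ) W ≤ (m + 1) * (m + g)) ∧
    (∀ z₀ : ℂ, z₀ ≠ 0 → ∀ B : Finset ℂ, (∀ b ∈ B, IsAlgebraic ℚ b) → ∀ m : ℕ,
      m * ({b : ℂ | b ∈ B ∧ z₀ * Complex.exp b ∈ Forms γ}.ncard *
        ({b : ℂ | b ∈ B ∧ z₀ * Complex.exp b ∈ Forms γ}.ncard - 1)) ≤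
        (m + 1) * (m + g) * ((B - B).card - 1)) ∧
    (∀ z₀ : ℂ, z₀ ≠ 0 → ∀ B : Finset ℂ, (∀ b ∈ B, IsAlgebraic ℚ b) →
      ({b : ℂ | b ∈ B ∧ z₀ * Complex.exp b ∈ Forms γ}.ncard : ℝ) ≤
        2 * Real.sqrt ((B + B).card) + g) ∧
    (∀ z₀ : ℂ, z₀ ≠ 0 → ∀ α δ : ℂ, IsAlgebraic ℚ α → IsAlgebraic ℚ δ → δ ≠ 0 → ∀ m K : ℕ,
      (m + 1) * (m + g) < m * K →
      ∃ k : ℕ, k ≤ K ∧ z₀ * Complex.exp (α + k * δ) ∉ Forms γ) ∧
    (∀ m K : ℕ, (m + 1) * (m + g) < m * K →
      ∃ k : ℕ, 1 ≤ k ∧ k ≤ K ∧ Complex.exp 1 ^ k ∉ Forms γ) := by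
  refine ⟨fun x hx => V11268.PerG.closed_form hx,
    fun z₀ hz δ hδ h0 => V11268.PerG.exp_few γ hz hδ h0,
    fun θ hθ W h => V11268.PerG.gen_main γ hθ W h,
    fun z₀ hz B hB m => V11268.PerG.exp_sidon γ hz B hB m,
    fun z₀ hz B hB => V11268.PerG.exp_doubling γ hz B hB,
    fun z₀ hz α δ hα hδ h0 m K hK => V11268.PerG.exp_runs γ hz hα hδ h0 m K hK, ?_⟩
  intro m K hK
  obtain ⟨k, hk, h⟩ := V11268.PerG.exp_runs γ one_ne_zero isAlgebraic_zero isAlgebraic_one
    one_ne_zero m K hK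
  refine ⟨k, ?_, hk, ?_⟩
  · rcases Nat.eq_zero_or_pos k with h0 | h0
    · exfalso
      subst h0
      apply h
      rw [Nat.cast_zero, zero_mul, add_zero, Complex.exp_zero, one_mul]
      exact V11268.PerG.one_mem_Forms γ
    · exact h0
  · rw [mul_one, zero_add, one_mul] at h
    rwa [← Complex.exp_nat_mul, mul_one]

end Pool.Agent.Results.MP_2cf66e_nt.AlgebraicExponents
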