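import Pool.Agent.Helper264.NT.NearPV

/-!
# Near almost every point `e` (or any other given number) is not a linear combination of periods of the fibres

A family (`Family X ι`) is an algebraic connection `c ∂_i Y = Y B_i` over the affine space with coordinates `x_i`, `i ∈ X`,
with an invertible matrix `Y` of analytic solutions on a nonempty connected open set `U`: for example `Y` is a branch of the
matrix of the periods of the fibres of any family of varieties (in any degree of the cohomology) over an open part of the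
affine space, rows: homology, columns: de Rham cohomology. `galois` is the group of the constant matrices `g` such that all
polynomial relations over `ℂ[x]` between the entries of `Y` are relations between the entries of `g Y`: the Zariski closure of
the monodromy group. We assume that there are no constants (`NoConstants`): the trivial representation is not a constituent
of the standard representation of its identity component `G°`. In other words a linear form in the matrix entries which is
constant on `G°` vanishes on `G°`. For families of varieties `G°` is semisimple and the assumption says that there are no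
invariants: the part of the cohomology which varies.

Let `F_j`, `j` in a finite set, be such families, and let `θ_0, θ_1, …` be any complex numbers, for instance `θ_0 = e`, or `1/π`,
Euler's constant, and so on. There is a set `E` in `ℂ^d`, `d` the number of parameters, of Hausdorff dimension at most `2 d - 2`
such that for all `z` outside of `E`, all `w > 0` (arbitrarily small), all number fields `K` and all `k`, for large `T`, at ALL
tuples `s` with coordinates in `K` of height at most `T` at distance at most `T ^ (-w)` from `z` no nonzero number of the form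
`∑ c_i θ_i`, `i < k`, with `c_i` integers of `K` of size at most `T ^ k`, is a linear combination of the periods of all the
fibres `X_{j,s_j}` with coefficients which are integers of `K` of size at most `T ^ k`. For real tuples `z` the same holds
outside of a set in `ℝ^d` of dimension at most `d - 1`. In particular `e` is not such a period.
-/

set_option autoImplicit false

open Filter NumberField
open scoped ENNReal

namespace Pool.Agent.Results.MP_2cf66e_nt.LinearFormsNearEveryPoint

/-- the value at `x` and at the matrix `Z` of a polynomial in the entries of a matrix, with coefficients in `ℂ[x]` -/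
noncomputable def value {X ι : Type} (x : X → ℂ) (Z : Matrix ι ι ℂ) (p : MvPolynomial (ι × ι) (MvPolynomial X ℂ)) : ℂ :=
  MvPolynomial.eval₂ (MvPolynomial.eval x) (fun v => Z v.1 v.2) p

/-- an algebraic connection on the affine space `ℂ ^ X` with a fundamental matrix `Y` of analytic solutions on `U` -/
structure Family (X ι : Type) [Fintype X] [DecidableEq X] [Fintype ι] [DecidableEq ι] where
  /-- a nonempty connected open set -/
  U : Set (X → ℂ)
  isOpen : IsOpen U
  connected : IsPreconnected U
  nonempty : U.Nonempty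
  /-- the matrix of the solutions (periods) -/
  Y : (X → ℂ) → Matrix ι ι ℂ
  analytic : ∀ a b, AnalyticOnNhd ℂ (fun x => Y x a b) U
  det_ne : ∀ x ∈ U, (Y x).det ≠ 0
  /-- the common denominator of the connection -/
  c : MvPolynomial X ℂ
  c_ne : c ≠ 0
  /-- the numerators -/
  B : X → Matrix ι ι (MvPolynomial X ℂ)
  /-- `c ∂_i Y = Y B_i` -/
  eqn : ∀ x ∈ U, ∀ i a b, MvPolynomial.eval x c * fderiv ℂ (fun x => Y x a b) x (Pi.single i 1) =
    ∑ e, Y x a e * MvPolynomial.eval x (B i e b)

section
variable {X ι : Type} [Fintype X] [DecidableEq X] [Fintype ι] [DecidableEq ι]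

/-- all polynomial relations between the entries of `Y` over `ℂ[x]` are relations between the entries of `g Y` -/
def Preserves (F : Family X ι) (g : Matrix ι ι ℂ) : Prop :=
  ∀ p : MvPolynomial (ι × ι) (MvPolynomial X ℂ), (∀ x ∈ F.U, value x (F.Y x) p = 0) →
    ∀ x ∈ F.U, value x (g * F.Y x) p = 0

/-- the Galois group -/
def Family.galois (F : Family X ι) : Subgroup (GL ι ℂ) where
  carrier := {g | Preserves F (g : Matrix ι ι ℂ)}
  mul_mem' := fun ha hb => (Pool.Agent.V11273.PV.Gal F.U F.Y).mul_mem' ha hb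
  one_mem' := (Pool.Agent.V11273.PV.Gal F.U F.Y).one_mem'
  inv_mem' := fun ha => (Pool.Agent.V11273.PV.Gal F.U F.Y).inv_mem' ha

/-- the subgroup `H` of `G` is defined by polynomial equations -/
def ClosedIn {G : Subgroup (GL ι ℂ)} (H : Subgroup G) : Prop :=
  ∃ E : Set (MvPolynomial (ι × ι) ℂ), ∀ h : G, h ∈ H ↔
    ∀ e ∈ E, MvPolynomial.eval (fun v => ((h : GL ι ℂ) : Matrix ι ι ℂ) v.1 v.2) e = 0

/-- the elements of `G` which lie in all closed subgroups of finite index of `G` -/
def identityComponent (G : Subgroup (GL ι ℂ)) : Set (GL ι ℂ) :=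
  {g | ∃ hg : g ∈ G, ∀ H : Subgroup G, H.FiniteIndex → ClosedIn H → (⟨g, hg⟩ : G) ∈ H}

end

/-- quotients of two integers of `K`, all conjugates of which are at most `T` -/
def HeightLe (K : Type) [Field K] [NumberField K] (T : ℝ) (x : K) : Prop :=
  ∃ a b : 𝓞 K, b ≠ 0 ∧ house (a : K) ≤ T ∧ house (b : K) ≤ T ∧ x = a / b

/-- There are no constants: a linear form in the entries of a matrix which is constant on the identity component of the
Galois group is zero there. -/
def NoConstants {X ι : Type} [Fintype X] [DecidableEq X] [Fintype ι] [DecidableEq ι] (F : Family X ι) : Prop :=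
  ∀ (e : ι → ι → ℂ) (c : ℂ),
    (∀ g ∈ identityComponent F.galois, ∑ a, ∑ b, e a b * (g : Matrix ι ι ℂ) a b = c) → c = 0

section
variable {κ : Type} [Fintype κ] [DecidableEq κ] {X ι : κ → Type} [∀ j, Fintype (X j)] [∀ j, DecidableEq (X j)]
  [∀ j, Fintype (ι j)] [∀ j, DecidableEq (ι j)]

/-- the tuples of points of the domains of the families -/
def domain (F : ∀ j, Family (X j) (ι j)) : Set ((Σ j, X j) → ℂ) := {z | ∀ j, (fun i => z ⟨j, i⟩) ∈ (F j).U}

/-- At all tuples `s` with coordinates in the number field `K` (embedded into `ℂ` by `io`) of height at most `T` and with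
`|s i - z i| ≤ T ^ (-w)` for all `i`: if a linear combination of all the periods `Y_j(s_j)_{a b}` with coefficients `p` in the
integers of `K`, all conjugates of which are at most `T ^ k`, is equal to `∑ c i θ i`, `i < k`, for such integers `c i`, then
it is zero. -/
def GoodNear (F : ∀ j, Family (X j) (ι j)) (θ : ℕ → ℂ) (z : (Σ j, X j) → ℂ) (w : ℝ) (K : Type) [Field K] [NumberField K]
    (io : K →+* ℂ) (k : ℕ) (T : ℝ) : Prop :=
  ∀ s : (Σ j, X j) → K, (∀ i, HeightLe K T (s i)) → (∀ i, ‖io (s i) - z i‖ ≤ T ^ (-w)) →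
    ∀ (p : ∀ j, ι j → ι j → 𝓞 K) (c : Fin k → 𝓞 K), (∀ j a b (φ : K →+* ℂ), ‖φ (p j a b : K)‖ ≤ T ^ (k : ℝ)) →
      (∀ i (φ : K →+* ℂ), ‖φ (c i : K)‖ ≤ T ^ (k : ℝ)) →
      ∑ j, ∑ a, ∑ b, io (p j a b : K) * (F j).Y (fun i => io (s ⟨j, i⟩)) a b = ∑ i : Fin k, io (c i : K) * θ i →
      ∑ i : Fin k, io (c i : K) * θ i = 0

lemma covers [Nonempty (Σ j, X j)] (F : ∀ j, Family (X j) (ι j)) :
    Pool.Agent.Helper264.NT.FixCov (Pool.Agent.V11273.PV.UU fun j => (F j).U)
      (Pool.Agent.V11273.PV.fE fun j => (F j).Y)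
      (Pool.Agent.V11273.PV.Bad3 (fun j => (F j).U) fun j => (F j).Y) :=
  Pool.Agent.Helper264.NT.fix3 (U := fun j => (F j).U) (Y := fun j => (F j).Y) (fun j => (F j).connected)
    (fun j => (F j).isOpen) (fun j => (F j).nonempty) (fun j => (F j).analytic) (fun j => (F j).det_ne)
    (fun j => (F j).c_ne) (fun j => (F j).eqn)

/-- the sequence `1, θ_0, θ_1, …` -/
noncomputable def xi (θ : ℕ → ℂ) : ℕ → ℂ
  | 0 => 1
  | (i + 1) => θ i

/-- the linear form -/
noncomputable def lin {κ : Type} [Fintype κ] {ι : κ → Type} [∀ j, Fintype (ι j)] {K : Type} [Field K] [NumberField K]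
    (p : ∀ j, ι j → ι j → 𝓞 K) : MvPolynomial (Σ j, ι j × ι j) (𝓞 K) :=
  ∑ v : Σ j, ι j × ι j, MvPolynomial.C (p v.1 v.2.1 v.2.2) * MvPolynomial.X v

lemma lin_coeff {K : Type} [Field K] [NumberField K] (p : ∀ j, ι j → ι j → 𝓞 K) (m : (Σ j, ι j × ι j) →₀ ℕ) :
    (∃ v : Σ j, ι j × ι j, (lin p).coeff m = p v.1 v.2.1 v.2.2) ∨ (lin p).coeff m = 0 := by
  classical
  by_cases h : ∃ v : Σ j, ι j × ι j, Finsupp.single v 1 = m
  · obtain ⟨v, rfl⟩ := h
    left
    refine ⟨v, ?_⟩
    rw [lin, MvPolynomial.coeff_sum, Finset.sum_eq_single v]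
    · rw [MvPolynomial.coeff_C_mul, MvPolynomial.coeff_X, if_pos rfl, mul_one]
    · intro u _ hu
      rw [MvPolynomial.coeff_C_mul, MvPolynomial.coeff_X, if_neg, mul_zero]
      intro h1
      exact hu (Finsupp.single_left_injective one_ne_zero h1)
    · intro h1
      exact absurd (Finset.mem_univ v) h1
  · right
    rw [lin, MvPolynomial.coeff_sum]
    refine Finset.sum_eq_zero fun v _ => ?_
    rw [MvPolynomial.coeff_C_mul, MvPolynomial.coeff_X, if_neg fun h1 => h ⟨v, h1⟩, mul_zero]

lemma lin_deg {K : Type} [Field K] [NumberField K] (p : ∀ j, ι j → ι j → 𝓞 K) (y : Σ j, ι j × ι j) :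
    (lin p).degreeOf y ≤ 1 := by
  classical
  rw [lin]
  refine (MvPolynomial.degreeOf_sum_le y Finset.univ _).trans (Finset.sup_le fun v _ => ?_)
  refine (MvPolynomial.degreeOf_C_mul_le _ y _).trans ?_
  rw [MvPolynomial.degreeOf_X]
  split_ifs <;> omega

lemma lin_eval {K : Type} [Field K] [NumberField K] (io : K →+* ℂ) (p : ∀ j, ι j → ι j → 𝓞 K)
    (M : ∀ j, Matrix (ι j) (ι j) ℂ) :
    MvPolynomial.eval₂ (io.comp (algebraMap (𝓞 K) K)) (fun v : Σ j, ι j × ι j => M v.1 v.2.1 v.2.2) (lin p) =
      ∑ j, ∑ a, ∑ b, io (p j a b : K) * M j a b := by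
  rw [lin, MvPolynomial.eval₂_sum, Fintype.sum_sigma]
  refine Finset.sum_congr rfl fun j _ => ?_
  rw [Fintype.sum_prod_type]
  refine Finset.sum_congr rfl fun a _ => Finset.sum_congr rfl fun b _ => ?_
  rw [MvPolynomial.eval₂_mul, MvPolynomial.eval₂_C, MvPolynomial.eval₂_X]
  rfl

lemma degreeOf_map_le' {σ R S : Type} [CommSemiring R] [CommSemiring S] (g : R →+* S) (P : MvPolynomial σ R) (y : σ) :
    (P.map g).degreeOf y ≤ P.degreeOf y := by
  classical
  rw [MvPolynomial.degreeOf_def, MvPolynomial.degreeOf_def]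
  exact Multiset.count_le_of_le y MvPolynomial.degrees_map_le

lemma good_of (F : ∀ j, Family (X j) (ι j)) (hF : ∀ j, NoConstants (F j)) {θ : ℕ → ℂ} {z : (Σ j, X j) → ℂ} {w : ℝ}
    {K : Type} [Field K] [NumberField K] {io : K →+* ℂ} {k : ℕ} {T : ℝ} (hT : 1 ≤ T)
    (h : ∀ s : (Σ j, X j) → K, (∀ i, Y120.HtLe K T (s i)) →
      (∀ i, ‖io (s i) - z i‖ ≤ T ^ (-w)) → ∀ P : MvPolynomial (Σ j, ι j × ι j) ℂ,
        Pool.Agent.V11273.PV.Small K io (k + 1) (Pool.Agent.H107.Per.res (xi θ) (k + 1)) T P →
        MvPolynomial.eval (fun y => Pool.Agent.V11273.PV.fE (fun j => (F j).Y) y fun j => io (s j)) P = 0 →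
          ¬ Pool.Agent.V11273.PV.Bad3 (fun j => (F j).U) (fun j => (F j).Y) (fun j => io (s j)) P) :
    GoodNear F θ z w K io k T := by
  classical
  intro s hs hz p b hp hb hv
  set v : ℂ := ∑ i : Fin k, io (b i : K) * θ i with hvdef
  set io' : 𝓞 K →+* ℂ := io.comp (algebraMap (𝓞 K) K) with hio'
  set P' : MvPolynomial (Σ j, ι j × ι j) ℂ := (lin p).map io' - MvPolynomial.C v with hP'
  have hTk : ∀ x : ℝ, x ≤ T ^ (k : ℝ) → x ≤ T ^ ((k + 1 : ℕ) : ℝ) := fun x hx =>
    hx.trans (Real.rpow_le_rpow_of_exponent_le hT (by push_cast; linarith))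
  have hTp : 0 ≤ T ^ ((k + 1 : ℕ) : ℝ) := Real.rpow_nonneg (by linarith) _
  have hsmall : Pool.Agent.V11273.PV.Small K io (k + 1) (Pool.Agent.H107.Per.res (xi θ) (k + 1)) T P' := by
    refine ⟨fun y => ?_, fun m => ?_⟩
    · refine (MvPolynomial.degreeOf_sub_le _ _ _).trans (max_le ?_ ?_)
      · exact (degreeOf_map_le' io' _ y).trans ((lin_deg p y).trans (Nat.le_add_left _ _))
      · rw [MvPolynomial.degreeOf_C]
        exact Nat.zero_le _
    · let c' : Fin (k + 1) → 𝓞 K := Fin.cons ((lin p).coeff m) (fun i => if m = 0 then -(b i) else 0)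
      refine ⟨c', fun i φ => ?_, ?_⟩
      · refine Fin.cases ?_ (fun i => ?_) i
        · change ‖φ (((lin p).coeff m : 𝓞 K) : K)‖ ≤ _
          rcases lin_coeff p m with ⟨v, hv⟩ | h0
          · rw [hv]
            exact hTk _ (hp _ _ _ φ)
          · rw [h0]
            simpa using hTp
        · change ‖φ (((if m = 0 then -(b i) else 0 : 𝓞 K)) : K)‖ ≤ _
          split_ifs
          · rw [RingOfIntegers.coe_eq_algebraMap, map_neg, map_neg, norm_neg]
            exact hTk _ (hb i φ)
          · simpa using hTp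
      · rw [Fin.sum_univ_succ]
        simp only [c', Fin.cons_zero, Fin.cons_succ]
        have e0 : Pool.Agent.H107.Per.res (xi θ) (k + 1) 0 = 1 := rfl
        have e2 : ∀ i : Fin k, Pool.Agent.H107.Per.res (xi θ) (k + 1) i.succ = θ i := fun _ => rfl
        rw [e0]
        simp only [e2]
        rw [hP', MvPolynomial.coeff_sub, MvPolynomial.coeff_map, MvPolynomial.coeff_C]
        by_cases hm : m = 0
        · subst hm
          simp only [if_true]
          rw [hvdef]
          simp only [RingOfIntegers.coe_eq_algebraMap, map_neg, mul_neg, Finset.sum_neg_distrib]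
          rw [hio', RingHom.comp_apply]
          have h3 : ∑ i : Fin k, io ((algebraMap (𝓞 K) K) (b i)) * θ i =
              ∑ i : Fin k, θ i * io ((algebraMap (𝓞 K) K) (b i)) := Finset.sum_congr rfl fun i _ => mul_comm _ _
          rw [h3]
          ring
        · simp only [hm, if_false, Ne.symm hm]
          simp [hio', RingOfIntegers.coe_eq_algebraMap]
  have hzero : MvPolynomial.eval (fun y => Pool.Agent.V11273.PV.fE (fun j => (F j).Y) y fun j => io (s j)) P' = 0 := by
    rw [hP', map_sub, MvPolynomial.eval_map, MvPolynomial.eval_C, sub_eq_zero, ← hv]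
    exact lin_eval io p fun j => (F j).Y fun i => io (s ⟨j, i⟩)
  have hgood := h s hs hz P' hsmall hzero
  -- the value is constant on the orbit
  let L : ∀ j, Matrix (ι j) (ι j) ℂ → ℂ := fun j g =>
    ∑ a, ∑ b, io (p j a b : K) * (g * (F j).Y fun i => io (s ⟨j, i⟩)) a b
  have horb : ∀ g : ∀ j, GL (ι j) ℂ, (∀ j, g j ∈ identityComponent (F j).galois) → ∑ j, L j (g j) = v := by
    intro g hg
    by_contra hne
    apply hgood
    refine ⟨g, hg, ?_⟩
    rw [hP', map_sub, MvPolynomial.eval_map, MvPolynomial.eval_C, sub_ne_zero]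
    intro h1
    apply hne
    rw [← h1]
    exact (lin_eval io p fun j => (g j : Matrix (ι j) (ι j) ℂ) * (F j).Y fun i => io (s ⟨j, i⟩)).symm
  have hone : ∀ j, (1 : GL (ι j) ℂ) ∈ identityComponent (F j).galois := fun j =>
    ⟨(F j).galois.one_mem, fun H _ _ => H.one_mem⟩
  have hL0 : ∀ j, L j 1 = 0 := by
    intro j
    refine hF j (fun a c => ∑ b, io (p j a b : K) * (F j).Y (fun i => io (s ⟨j, i⟩)) c b) (L j 1) fun g hg => ?_
    have h1 := horb (fun i => 1) hone
    have h2 := horb (Function.update (fun i => 1) j g) (by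
      intro i
      rcases eq_or_ne i j with rfl | hij
      · rw [Function.update_self]
        exact hg
      · rw [Function.update_of_ne hij]
        exact hone i)
    rw [← Finset.add_sum_erase _ _ (Finset.mem_univ j)] at h1 h2
    have h3 : ∑ i ∈ Finset.univ.erase j, L i ((Function.update (fun i => (1 : GL (ι i) ℂ)) j g i : GL (ι i) ℂ)) =
        ∑ i ∈ Finset.univ.erase j, L i ((1 : GL (ι i) ℂ) : Matrix (ι i) (ι i) ℂ) := by
      refine Finset.sum_congr rfl fun i hi => ?_
      rw [Function.update_of_ne (Finset.ne_of_mem_erase hi)]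
    rw [h3, Function.update_self] at h2
    have h4 : L j (g : Matrix (ι j) (ι j) ℂ) = L j 1 := by
      have h5 := h2.trans h1.symm
      exact add_right_cancel h5
    rw [← h4]
    change _ = ∑ a, ∑ b, io (p j a b : K) * ((g : Matrix (ι j) (ι j) ℂ) * (F j).Y fun i => io (s ⟨j, i⟩)) a b
    refine Finset.sum_congr rfl fun a _ => ?_
    simp only [Matrix.mul_apply, Finset.mul_sum, Finset.sum_mul]
    rw [Finset.sum_comm]
    refine Finset.sum_congr rfl fun b _ => Finset.sum_congr rfl fun c _ => ?_
    ring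
  have h6 := horb (fun i => 1) hone
  rw [← h6]
  exact Finset.sum_eq_zero fun j _ => hL0 j

/-- **Theorem.** Let `F_j`, `j` in a finite set, be families without constants, `d` the dimension of the product of their
bases, and `θ i` any complex numbers (for example `θ 0 = e`).
(1) There is a set `E` in `ℂ ^ d` of Hausdorff dimension at most `2 (d - 1)` such that for all `z` in the domain outside
of `E`, all `w > 0`, all number fields `K ⊂ ℂ` and all `k`, the property `GoodNear F θ z w K k T` holds for all large `T`.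
(2) There is a set `E` in `ℝ ^ d` of Hausdorff dimension at most `d - 1` such that for all real `z` in the domain outside
of `E`, all `w > 0`, all number fields `K ⊂ ℝ` and all `k`, the property `GoodNear F θ z w K k T` holds for all
large `T`. -/
theorem result [Nonempty (Σ j, X j)] (F : ∀ j, Family (X j) (ι j)) (hF : ∀ j, NoConstants (F j)) (θ : ℕ → ℂ) :
    (∃ E : Set ((Σ j, X j) → ℂ), dimH E ≤ ((2 * (Fintype.card (Σ j, X j) - 1) : ℕ) : ℝ≥0∞) ∧
      ∀ z ∈ domain F, z ∉ E → ∀ w : ℝ, 0 < w → ∀ (K : IntermediateField ℚ ℂ) [NumberField K], ∀ k : ℕ,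
        ∀ᶠ T : ℝ in atTop, GoodNear F θ z w K (algebraMap K ℂ) k T) ∧
    ∃ E : Set ((Σ j, X j) → ℝ), dimH E ≤ ((Fintype.card (Σ j, X j) - 1 : ℕ) : ℝ≥0∞) ∧
      ∀ z : (Σ j, X j) → ℝ, (fun i => (z i : ℂ)) ∈ domain F → z ∉ E → ∀ w : ℝ, 0 < w →
        ∀ (K : IntermediateField ℚ ℝ) [NumberField K], ∀ k : ℕ, ∀ᶠ T : ℝ in atTop,
          GoodNear F θ (fun i => (z i : ℂ)) w K (Complex.ofRealHom.comp (algebraMap K ℝ)) k T := by
  have hopen : IsOpen (Pool.Agent.V11273.PV.UU fun j => (F j).U) :=
    Pool.Agent.V11273.PV.UU_open fun j => (F j).isOpen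
  constructor
  · obtain ⟨E, hE, h⟩ := Pool.Agent.Helper264.NT.near_fix (𝕜 := ℂ) (RingHom.id ℂ) (fun _ => rfl)
      (fun P hP => ⟨P, hP, le_rfl, fun x hx => by simpa [MvPolynomial.aeval_eq_eval] using hx⟩) hopen (covers F) (xi θ)
    refine ⟨E, by simpa using hE, fun z hz hzE w hw K _ k => ?_⟩
    obtain ⟨T₁, hT₁⟩ := h z hzE hz K w (k + 1) hw
    filter_upwards [eventually_ge_atTop (1 : ℝ), eventually_ge_atTop T₁] with T hT1 hT
    exact good_of F hF hT1 fun s hs hsz P hP h0 => hT₁ T hT s hs hsz P hP h0
  · obtain ⟨E, hE, h⟩ := Pool.Agent.Helper264.NT.near_fix (𝕜 := ℝ) Complex.ofRealHom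
      (fun a => (Complex.norm_real a).symm) (fun P hP => Pool.Agent.Helper264.NT.real_part P hP) hopen (covers F) (xi θ)
    refine ⟨E, by simpa using hE, fun z hz hzE w hw K _ k => ?_⟩
    obtain ⟨T₁, hT₁⟩ := h z hzE hz K w (k + 1) hw
    filter_upwards [eventually_ge_atTop (1 : ℝ), eventually_ge_atTop T₁] with T hT1 hT
    refine good_of F hF hT1 fun s hs hsz P hP h0 => ?_
    refine hT₁ T hT s hs (fun i => ?_) P hP h0
    have h1 := hsz i
    change ‖((s i : ℝ) : ℂ) - (z i : ℂ)‖ ≤ _ at h1
    rwa [← Complex.ofReal_sub, Complex.norm_real] at h1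

end

end Pool.Agent.Results.MP_2cf66e_nt.LinearFormsNearEveryPoint
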