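import Pool.Agent.Helper264.NT.NearR
import Pool.Agent.TH818.AP.Beta
import Pool.Agent.TH818.AP.LiInd
import Pool.Agent.TH818.AP.LiLoc
import Pool.Agent.H164.EM.Meas

/-!
# The number `e` and the periods of families near all points outside of a set of dimension `n - 1`

Families of periods (integrals depending on parameters) are given by real analytic functions `f_1, …, f_m` of a parameter,
for instance the logarithm and the polylogarithms, the Beta functions `t ↦ B(t, ρ)`, or elliptic, hyperelliptic and other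
abelian integrals; at the rational or algebraic values of the parameter their values are periods. If `e` is a period, it is
natural to look for it among the values of such functions and in the fields generated by them. We show that, up to any
degree and any polynomial height, `e` has no relation with the values of the functions at ALL tuples of algebraic
parameters near all points outside of a set of dimension `n - 1` (of dimension zero for `n = 1`).

New input: a measure of transcendence of `e` of polynomial type in the form needed by the near-point theorem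
(`Pool.Agent.H164.EM.goodXi_e`).
-/

set_option autoImplicit false

open Height
open scoped ENNReal

namespace Pool.Agent.Results.MP_2cf66e_nt.PeriodsNearEveryPoint

/-- no nonzero polynomial `P` with real coefficients satisfies `P (t, f_1 (t), …, f_m (t)) = 0` for all `t` in `S` -/
def Independent {m : ℕ} (f : Fin m → ℝ → ℝ) (S : Set ℝ) : Prop :=
  ∀ P : MvPolynomial (Option (Fin m)) ℝ, (∀ t ∈ S, MvPolynomial.eval (fun o => o.elim t fun i => f i t) P = 0) → P = 0

/-- the `n m + 1` numbers `e` and `f_(j,i) (q_j)` -/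
noncomputable def numbers {n m : ℕ} (f : Fin n → Fin m → ℝ → ℝ) (q : Fin n → ℝ) (x : Option (Fin n × Fin m)) : ℝ :=
  match x with
  | none => Real.exp 1
  | some (j, i) => f j i (q j)

/-- every nonzero polynomial in `n m + 1` variables with coefficients in `K` of height at most `T ^ A`, of degree at most
`d` in each variable, takes at the `n m + 1` numbers of the tuple `q` a value of absolute value greater than `T ^ (-B)` -/
def NoRelation {n m : ℕ} (f : Fin n → Fin m → ℝ → ℝ) {K : IntermediateField ℚ ℝ} [NumberField K] (d : ℕ)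
    (A B T : ℝ) (q : Fin n → K) : Prop :=
  ∀ P : MvPolynomial (Option (Fin n × Fin m)) K, P ≠ 0 → (∀ i, P.degreeOf i ≤ d) →
    (∀ s, mulHeight₁ (P.coeff s) ≤ T ^ A) →
      T ^ (-B) < |MvPolynomial.eval₂ (algebraMap K ℝ) (numbers f fun j => (q j : ℝ)) P|

/-- Near all points `y` with coordinates in the sets `S_j` outside of `E` no tuple `q` has a relation: for all real number
fields `K`, all `d`, `A` and `v > 0` there are `B` and `T₀` such that for all `T ≥ T₀` all `n`-tuples `q` of elements of `K`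
of height at most `T` with `|q_j - y_j| ≤ T ^ (-v)` have no relation. -/
def NearAll {n m : ℕ} (f : Fin n → Fin m → ℝ → ℝ) (S : Fin n → Set ℝ) (E : Set (Fin n → ℝ)) : Prop :=
  ∀ y ∉ E, (∀ j, y j ∈ S j) → ∀ (K : IntermediateField ℚ ℝ) [NumberField K] (d : ℕ) (A v : ℝ), 0 < v →
    ∃ B T₀ : ℝ, ∀ T ≥ T₀, ∀ q : Fin n → K, (∀ j, mulHeight₁ (q j) ≤ T ∧ |(q j : ℝ) - y j| ≤ T ^ (-v)) →
      NoRelation f d A B T q

theorem general (n m : ℕ) (hn : 1 ≤ n) (f : Fin n → Fin m → ℝ → ℝ) (S : Fin n → Set ℝ) (hSo : ∀ j, IsOpen (S j))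
    (hS : ∀ j, IsPreconnected (S j)) (han : ∀ j i, AnalyticOnNhd ℝ (f j i) (S j))
    (hind : ∀ j, Pool.Agent.Y771.KF.AIndepS (f j) (S j)) :
    ∃ E : Set (Fin n → ℝ), dimH E ≤ ((n - 1 : ℕ) : ℝ≥0∞) ∧ NearAll f S E := by
  have hnn : Nonempty (Fin n) := ⟨⟨0, hn⟩⟩
  obtain ⟨E, hE1, hE2⟩ := Pool.Agent.Helper264.NT.mainK (𝕜 := ℝ) (X := Fin n) Complex.ofRealHom
    (fun a => (Complex.norm_real a).symm) f (fun _ : Unit => Real.exp 1) S hSo hS han hind Pool.Agent.H164.EM.goodXi_e
  refine ⟨E, by simpa using hE1, fun y hy hyS K _ d A v hv => ?_⟩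
  obtain ⟨B, T0, h⟩ := hE2 y hy hyS K d A v hv
  refine ⟨B, T0, fun T hT q hq => ?_⟩
  refine Pool.Agent.Helper264.NT.norel_rename (Equiv.optionEquivSumPUnit (Fin n × Fin m)) (algebraMap K ℝ) f
    (fun _ : Unit => Real.exp 1) d A B T q (h T hT q hq) (fun k => (hq k).1) _ ?_
  intro w
  cases w <;> rfl

/-- `log t` for `k = 0`, and for `k ≥ 1` the polylogarithm `Li_k(t) = ∑_{m ≥ 1} t^m / m^k` -/
noncomputable def polylog (k : ℕ) (t : ℝ) : ℝ :=
  if k = 0 then Real.log t else ∑' m : ℕ, t ^ (m + 1) / ((m : ℝ) + 1) ^ k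

/-- the Beta function `B(t, ρ) = Γ(t) Γ(ρ) / Γ(t + ρ)` -/
noncomputable def beta (ρ t : ℝ) : ℝ := Real.Gamma t * Real.Gamma ρ / Real.Gamma (t + ρ)

/-- (1) Let `f_(j,1), …, f_(j,m)`, `j = 1, …, n`, be real analytic functions on open intervals (preconnected open sets)
`S_j` such that for every `j` the `m + 1` functions `t, f_(j,1), …, f_(j,m)` are algebraically independent over `ℝ`. There is
a subset `E` of `ℝ ^ n` of Hausdorff dimension at most `n - 1` such that for all `y` in `S_1 × ⋯ × S_n` outside of `E` the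
numbers `e` and `f_(j,i) (q_j)` have no relation of bounded degree and height for any tuple `q` of elements of a number
field near `y` (`NearAll`).
(2) One such set `E` works for the functions `log t, Li_1 (t), …, Li_w (t)` on `(0, 1)` and all `w`.
(3) For every countable set `R` of positive numbers one such set `E` works for all families of Beta functions
`t ↦ B(t, ρ_i)`, `ρ_i` in `R`, no `ρ_i` and no `ρ_i - ρ_k` an integer, on `(0, ∞)`. -/
theorem result (n : ℕ) (hn : 1 ≤ n) :
    (∀ (m : ℕ) (f : Fin n → Fin m → ℝ → ℝ) (S : Fin n → Set ℝ), (∀ j, IsOpen (S j)) → (∀ j, IsPreconnected (S j)) →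
      (∀ j i, AnalyticOnNhd ℝ (f j i) (S j)) → (∀ j, Independent (f j) (S j)) →
      ∃ E : Set (Fin n → ℝ), dimH E ≤ ((n - 1 : ℕ) : ℝ≥0∞) ∧ NearAll f S E) ∧
    (∃ E : Set (Fin n → ℝ), dimH E ≤ ((n - 1 : ℕ) : ℝ≥0∞) ∧
      ∀ w : ℕ, NearAll (fun (_ : Fin n) (i : Fin (w + 1)) => polylog i) (fun _ => Set.Ioo 0 1) E) ∧
    (∀ R : Set ℝ, R.Countable → (∀ x ∈ R, 0 < x) → ∃ E : Set (Fin n → ℝ), dimH E ≤ ((n - 1 : ℕ) : ℝ≥0∞) ∧
      ∀ (m : ℕ) (ρ : Fin m → ℝ), (∀ i, ρ i ∈ R) → (∀ i, ∀ z : ℤ, ρ i ≠ z) →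
        (∀ i k, i ≠ k → ∀ z : ℤ, ρ i - ρ k ≠ z) →
          NearAll (fun (_ : Fin n) (i : Fin m) => beta (ρ i)) (fun _ => Set.Ioi 0) E) := by
  refine ⟨fun m f S hSo hS han hind => general n m hn f S hSo hS han hind, ?_, ?_⟩
  · have hf : ∀ k : ℕ, polylog k = TH818.AP.pl k := by
      intro k
      funext t
      simp [TH818.AP.pl, polylog, TH818.AP.Li]
    have hmain := fun w : ℕ => general n (w + 1) hn (fun (_ : Fin n) (i : Fin (w + 1)) => polylog i)
      (fun _ => Set.Ioo (0 : ℝ) 1) (fun _ => isOpen_Ioo) (fun _ => isPreconnected_Ioo) (by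
        intro _ i t ht
        rw [hf]
        by_cases hi : (i : ℕ) = 0
        · have : TH818.AP.pl (i : ℕ) = Real.log := by funext t; simp [TH818.AP.pl, hi]
          rw [this]
          exact analyticAt_log ht.1
        · have : TH818.AP.pl (i : ℕ) = TH818.AP.Li (i : ℕ) := by funext t; simp [TH818.AP.pl, hi]
          rw [this]
          exact TH818.AP.liAn _ t ⟨by linarith [ht.1], ht.2⟩)
      (fun _ => Pool.Agent.Helper264.NT.aindepS_of_rindep _ (1 / 4) (1 / 2) (fun d => by
        have hind := TH818.AP.liInd_of TH818.AP.liAn TH818.AP.liLoc w d (1 / 4) (1 / 2) (by norm_num) (by norm_num)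
          (by norm_num)
        have : (fun (e : Fin (w + 1) → Fin (d + 1)) (t : ℝ) => ∏ i : Fin (w + 1), polylog (i : ℕ) t ^ (e i : ℕ)) =
            fun e : Fin (w + 1) → Fin (d + 1) => TH818.AP.gLi e := by
          funext e t
          simp only [TH818.AP.gLi]
          exact Finset.prod_congr rfl fun i _ => by rw [hf i]
        rw [this]
        exact hind) _ fun t ht => ⟨by linarith [ht.1], by linarith [ht.2]⟩)
    choose E hE1 hE2 using hmain
    refine ⟨⋃ w, E w, ?_, fun w y hy => hE2 w y fun h => hy (Set.mem_iUnion.2 ⟨w, h⟩)⟩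
    rw [dimH_iUnion]
    exact iSup_le hE1
  · intro R hR hR0
    have hRc : Countable R := hR.to_subtype
    have hall : ∀ x : (Σ m : ℕ, Fin m → R), ∃ E : Set (Fin n → ℝ), dimH E ≤ ((n - 1 : ℕ) : ℝ≥0∞) ∧
        ((∀ i, ∀ z : ℤ, (x.2 i : ℝ) ≠ z) → (∀ i k, i ≠ k → ∀ z : ℤ, (x.2 i : ℝ) - x.2 k ≠ z) →
          NearAll (fun (_ : Fin n) (i : Fin x.1) => beta (x.2 i)) (fun _ => Set.Ioi 0) E) := by
      intro x
      by_cases hx : (∀ i, ∀ z : ℤ, (x.2 i : ℝ) ≠ z) ∧ (∀ i k, i ≠ k → ∀ z : ℤ, (x.2 i : ℝ) - x.2 k ≠ z)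
      · obtain ⟨E, hE1, hE2⟩ := general n x.1 hn (fun (_ : Fin n) (i : Fin x.1) => beta (x.2 i)) (fun _ => Set.Ioi 0)
          (fun _ => isOpen_Ioi) (fun _ => isPreconnected_Ioi)
          (fun _ i t ht => TH818.AP.betaAn (x.2 i) t (hR0 _ (x.2 i).2) ht)
          (fun _ => Pool.Agent.Helper264.NT.aindepS_of_rindep _ 1 2
            (fun d => TH818.AP.beta x.1 d (fun i => (x.2 i : ℝ)) 1 2 (fun i => hR0 _ (x.2 i).2) hx.1 hx.2
              (by norm_num) (by norm_num)) _ fun t ht => by
                have := ht.1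
                show (0 : ℝ) < t
                linarith)
        exact ⟨E, hE1, fun _ _ => hE2⟩
      · exact ⟨∅, by simp, fun h1 h2 => absurd ⟨h1, h2⟩ hx⟩
    choose E hE1 hE2 using hall
    refine ⟨⋃ x, E x, ?_, fun m ρ hρ h1 h2 y hy => ?_⟩
    · rw [dimH_iUnion]
      exact iSup_le hE1
    · exact hE2 ⟨m, fun i => ⟨ρ i, hρ i⟩⟩ h1 h2 y fun h => hy (Set.mem_iUnion.2 ⟨_, h⟩)

end Pool.Agent.Results.MP_2cf66e_nt.PeriodsNearEveryPoint
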